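import Pool.Agent.W770.KP.Stm

set_option autoImplicit false

namespace Pool.Agent.W557.KP

open Pool.Agent.W770.KP
open scoped Classical

lemma geo (s : Finset ℤ) (g : ℤ → ℕ) (hg : Set.InjOn g s) :
    ∑ x ∈ s, ((1 : ℝ) / 2) ^ (g x) ≤ 2 := by
  have h1 : ∑ x ∈ s, ((1 : ℝ) / 2) ^ (g x) = ∑ m ∈ s.image g, ((1 : ℝ) / 2) ^ m := by
    rw [Finset.sum_image hg]
  rw [h1]
  have h2 := Summable.sum_le_tsum (s.image g) (fun i _ => by positivity) summable_geometric_two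
  rw [tsum_geometric_two] at h2
  exact h2

lemma wsum (Λ : Finset ℤ) (l : ℤ) : ∑ l' ∈ Λ, (2 : ℝ) ^ (-|l - l'|) ≤ 3 := by
  rw [← Finset.sum_filter_add_sum_filter_not Λ (fun l' => l' ≤ l)]
  have h1 : ∑ l' ∈ Λ.filter (fun l' => l' ≤ l), (2 : ℝ) ^ (-|l - l'|) ≤ 2 := by
    refine le_trans (le_of_eq ?_) (geo (Λ.filter (fun l' => l' ≤ l)) (fun x => (l - x).toNat) ?_)
    · refine Finset.sum_congr rfl ?_
      intro x hx
      have hx' : x ≤ l := (Finset.mem_filter.mp hx).2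
      have h : |l - x| = (((l - x).toNat : ℕ) : ℤ) := by
        rw [abs_of_nonneg (by omega), Int.toNat_of_nonneg (by omega)]
      rw [h, zpow_neg, zpow_natCast, one_div, inv_pow]
    · intro x hx y hy hxy
      have hx' : x ≤ l := (Finset.mem_filter.mp hx).2
      have hy' : y ≤ l := (Finset.mem_filter.mp hy).2
      simp only at hxy
      omega
  have h2 : ∑ l' ∈ Λ.filter (fun l' => ¬ l' ≤ l), (2 : ℝ) ^ (-|l - l'|) ≤ 1 := by
    have h3 := geo (Λ.filter (fun l' => ¬ l' ≤ l)) (fun x => (x - l - 1).toNat) (by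
      intro x hx y hy hxy
      have hx' : ¬ x ≤ l := (Finset.mem_filter.mp hx).2
      have hy' : ¬ y ≤ l := (Finset.mem_filter.mp hy).2
      simp only at hxy
      omega)
    have h4 : ∑ l' ∈ Λ.filter (fun l' => ¬ l' ≤ l), (2 : ℝ) ^ (-|l - l'|)
        = (1 / 2) * ∑ x ∈ Λ.filter (fun l' => ¬ l' ≤ l), ((1 : ℝ) / 2) ^ ((x - l - 1).toNat) := by
      rw [Finset.mul_sum]
      refine Finset.sum_congr rfl ?_
      intro x hx
      have hx' : ¬ x ≤ l := (Finset.mem_filter.mp hx).2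
      have h : |l - x| = (((x - l - 1).toNat + 1 : ℕ) : ℤ) := by
        rw [abs_of_nonpos (by omega)]
        push_cast
        rw [Int.toNat_of_nonneg (by omega)]
        ring
      rw [h, zpow_neg, zpow_natCast, ← inv_pow, ← one_div, pow_succ]
      ring
    rw [h4]
    linarith
  linarith

theorem conv : S_CONV := by
  intro p hp Λ y hy l
  set w : ℤ → ℝ := fun l' => (2 : ℝ) ^ (-|l - l'|) with hw
  have hwpos : ∀ x, 0 < w x := fun x => by simp only [hw]; positivity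
  have hs3 : ∑ l' ∈ Λ, w l' ≤ 3 := wsum Λ l
  rcases Finset.eq_empty_or_nonempty Λ with hΛ | hΛ
  · subst hΛ
    simp only [Finset.sum_empty, mul_zero]
    rw [zero_pow (by omega)]
  · have hs : 0 < ∑ l' ∈ Λ, w l' := Finset.sum_pos (fun x _ => hwpos x) hΛ
    set s : ℝ := ∑ l' ∈ Λ, w l' with hsdef
    have hmean := Real.pow_arith_mean_le_arith_mean_pow Λ (fun x => w x / s) y
      (fun i _ => div_nonneg (hwpos i).le hs.le)
      (by rw [← Finset.sum_div]; exact div_self (ne_of_gt hs)) (fun i _ => hy i) p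
    have e1 : ∑ l' ∈ Λ, w l' * y l' = s * ∑ i ∈ Λ, w i / s * y i := by
      rw [Finset.mul_sum]
      refine Finset.sum_congr rfl fun x _ => ?_
      field_simp
    have e2 : ∑ l' ∈ Λ, w l' * y l' ^ p = s * ∑ i ∈ Λ, w i / s * y i ^ p := by
      rw [Finset.mul_sum]
      refine Finset.sum_congr rfl fun x _ => ?_
      field_simp
    have hT : 0 ≤ ∑ i ∈ Λ, w i / s * y i ^ p :=
      Finset.sum_nonneg fun i _ => mul_nonneg (div_nonneg (hwpos i).le hs.le) (pow_nonneg (hy i) p)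
    obtain ⟨k, rfl⟩ : ∃ k, p = k + 1 := ⟨p - 1, by omega⟩
    have h3 : s ^ k ≤ 3 ^ (k + 1) := by
      have a1 : s ^ k ≤ 3 ^ k := pow_le_pow_left₀ hs.le hs3 k
      have a2 : (3 : ℝ) ^ k ≤ 3 ^ (k + 1) := pow_le_pow_right₀ (by norm_num) (by omega)
      linarith
    calc (∑ l' ∈ Λ, w l' * y l') ^ (k + 1)
        = s ^ (k + 1) * (∑ i ∈ Λ, w i / s * y i) ^ (k + 1) := by rw [e1, mul_pow]
      _ ≤ s ^ (k + 1) * ∑ i ∈ Λ, w i / s * y i ^ (k + 1) :=
          mul_le_mul_of_nonneg_left hmean (pow_nonneg hs.le _)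
      _ = s ^ k * (s * ∑ i ∈ Λ, w i / s * y i ^ (k + 1)) := by ring
      _ ≤ 3 ^ (k + 1) * (s * ∑ i ∈ Λ, w i / s * y i ^ (k + 1)) :=
          mul_le_mul_of_nonneg_right h3 (mul_nonneg hs.le hT)
      _ = 3 ^ (k + 1) * ∑ l' ∈ Λ, w l' * y l' ^ (k + 1) := by rw [e2]

end Pool.Agent.W557.KP
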